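import Pool.Agent.helper32.TRG.Spec
set_option autoImplicit false
open Finset
namespace Pool.Agent.TRI
open Pool.Agent.EXC

theorem Z5B_gen (F : Type) [Field F] [Finite F] : ∃ t : F, t ≠ 0 ∧ ∀ A : Subring F, t ∈ A → A = ⊤ := by
  obtain ⟨g, hg⟩ := IsCyclic.exists_monoid_generator (α := Fˣ)
  refine ⟨(g : F), g.ne_zero, fun A hA => ?_⟩
  rw [eq_top_iff]
  intro u _
  by_cases hu : u = 0
  · rw [hu]; exact A.zero_mem
  obtain ⟨k, hk⟩ := hg (Units.mk0 u hu)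
  have h1 := congrArg Units.val hk
  rw [Units.val_mk0] at h1
  have h2 : ((g ^ k : Fˣ) : F) = (g : F) ^ k := by push_cast; rfl
  rw [← h1]
  have h3 := pow_mem hA k
  rw [← h2] at h3
  exact h3

theorem Z5B_tp (F : Type) [Field F] (u v : Fin 4 → ℤ) (hu : ip C4 u u = 2) (hv : ip C4 v v = 2) :
    Tp C4 th4 (E C4 u : Lm C4 F) (E C4 v) (ip C4 u v) := by
  obtain ⟨β', hβ', hw⟩ := g4_NBR u th4 v hu th4_root hv
  obtain ⟨g, hg, s, s', hs, hs', e1, e2⟩ := f_WPG 4 C4 F hb4 u v th4 β' hu hv hw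
  have hip : ip C4 th4 β' = ip C4 u v := T11TPR_ip f_RFL C4 (u, v) (th4, β') hw
  exact ⟨g, hg, β', hβ', hip, s, s', T11TPR_ne s hs, T11TPR_ne s' hs', e1, e2⟩

theorem Z5B_conj (hCM4 : CM4_stmt) (F : Type) [Field F] (a b : Lm C4 F) (y : EG C4 F) (hT : Tp C4 th4 a b (-1)) (hY : Y4 a b y)
    (u v : Fin 4 → ℤ) (hu : ip C4 u u = 2) (hv : ip C4 v v = 2) (huv : ip C4 u v = -1) (t : F) (ht : t ≠ 0) :
    ∃ k : EG C4 F, ((k * y * k⁻¹ : EG C4 F) : Lm C4 F ≃ₗ[F] Lm C4 F) = XG C4 u 1 * XG C4 v t := by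
  have hT1 := Z5B_tp F u v hu hv
  rw [huv] at hT1
  have hT2 := (g4_TPF F _ _ _ hT1).2.2.2.1 1 t one_ne_zero ht
  rw [one_smul] at hT2
  obtain ⟨k, hk, hka, hkb⟩ := hCM4 F a b _ _ hT hT2
  obtain ⟨g0, h0, hg, hh, hy⟩ := hY
  have hEXF := g4_EXF F
  obtain ⟨hExa, hExb, -⟩ := g4_TPF F a b (-1) hT
  have hka2 := (hEXF.2.2.1 a hExa).2.2.2.2.2.2.2.1 k hk 1 g0 hg
  have hkb2 := (hEXF.2.2.1 b hExb).2.2.2.2.2.2.2.1 k hk 1 h0 hh
  rw [hka] at hka2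
  rw [hkb] at hkb2
  have h1 : k * (g0 : Lm C4 F ≃ₗ[F] Lm C4 F) * k⁻¹ = XG C4 u 1 := by
    apply LinearEquiv.ext
    intro w
    rw [hka2 w, (g_XG F u hu 1).1 w]
  have h2 : k * (h0 : Lm C4 F ≃ₗ[F] Lm C4 F) * k⁻¹ = XG C4 v t := by
    apply LinearEquiv.ext
    intro w
    have hX := (hEXF.2.2.1 _ (hEXF.2.1 v hv)).1
    rw [hkb2 w, ((f_XAU 4 C4 F _ hX).2.2.2 t).2 1 w, mul_one, (g_XG F v hv t).1 w]
  refine ⟨⟨k, hk⟩, ?_⟩
  have h3 : ((⟨k, hk⟩ * y * (⟨k, hk⟩)⁻¹ : EG C4 F) : Lm C4 F ≃ₗ[F] Lm C4 F) =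
      k * ((g0 : Lm C4 F ≃ₗ[F] Lm C4 F) * (h0 : Lm C4 F ≃ₗ[F] Lm C4 F)) * k⁻¹ := by
    rw [hy]
    rfl
  rw [h3, ← h1, ← h2]
  group

theorem Z5B_XP (F : Type) [Field F] (α : Fin 4 → ℤ) (t : F) : XP 0 (1 : F) α t = XG C4 α t := by
  unfold XP
  rw [one_zpow, mul_one]

theorem Z5B (hN4N : N4N_stmt) (hCM4 : CM4_stmt) (hGSN : GSN_stmt) : Z5B_stmt := by
  intro F _ _ hCt a b y hT hY
  obtain ⟨t, ht0, ht⟩ := Z5B_gen F
  obtain ⟨l, u, v, hlen, hl, hu, hv, huv, hCg⟩ := hCt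
  have hc : ∀ i : Fin 4, ∃ k : EG C4 F, ((k * y * k⁻¹ : EG C4 F) : Lm C4 F ≃ₗ[F] Lm C4 F) =
      XG C4 (l.get (i.cast hlen.symm)).1 1 * XG C4 (l.get (i.cast hlen.symm)).2 1 := fun i => by
    obtain ⟨h1, h2, h3⟩ := hl _ (List.get_mem l (i.cast hlen.symm))
    exact Z5B_conj hCM4 F a b y hT hY _ _ h1 h2 h3 1 one_ne_zero
  choose k hk using hc
  obtain ⟨k0, hk0⟩ := Z5B_conj hCM4 F a b y hT hY u v hu hv huv t ht0
  obtain ⟨g, hgdef⟩ : ∃ g : Fin 5 → EG C4 F, g = Fin.cons k0 k := ⟨_, rfl⟩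
  have hg0 : g 0 = k0 := by rw [hgdef]; rfl
  have hgs : ∀ i : Fin 4, g i.succ = k i := by
    intro i; rw [hgdef]; rfl
  refine ⟨g, ?_⟩
  have hmem : ∀ i, ((g i * y * (g i)⁻¹ : EG C4 F) : Lm C4 F ≃ₗ[F] Lm C4 F) ∈
      (Subgroup.closure (Set.range fun i => g i * y * (g i)⁻¹)).map (GE C4 F).subtype := fun i =>
    ⟨_, Subgroup.subset_closure ⟨i, rfl⟩, rfl⟩
  generalize hH' : Subgroup.closure (Set.range fun i => g i * y * (g i)⁻¹) = H' at hmem ⊢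
  have hm0 := hmem 0
  rw [hg0, hk0] at hm0
  have hPH : ∀ P ∈ (l.map fun p => [(p.1, true), (p.2, true)]) ++ [[(u, true), (v, false)]],
      prd C4 t P ∈ H'.map (GE C4 F).subtype := by
    intro P hP
    rcases List.mem_append.1 hP with hP | hP
    · obtain ⟨p, hp, rfl⟩ := List.mem_map.1 hP
      obtain ⟨i, hi⟩ := List.get_of_mem hp
      have h5 := hmem (i.cast hlen).succ
      rw [hgs, hk] at h5
      have h6 : (i.cast hlen).cast hlen.symm = i := by ext; rfl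
      rw [h6, hi] at h5
      have h7 : prd C4 t [(p.1, true), (p.2, true)] = XG C4 p.1 1 * XG C4 p.2 1 := by
        simp [prd]
      rw [h7]
      exact h5
    · rw [List.mem_singleton] at hP
      rw [hP]
      have h7 : prd C4 t [(u, true), (v, false)] = XG C4 u 1 * XG C4 v t := by
        simp [prd]
      rw [h7]
      exact hm0
  have hrt : ∀ P ∈ (l.map fun p => [(p.1, true), (p.2, true)]) ++ [[(u, true), (v, false)]], ∀ p ∈ P, ip C4 p.1 p.1 = 2 := by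
    intro P hP
    rcases List.mem_append.1 hP with hP | hP
    · obtain ⟨p, hp, rfl⟩ := List.mem_map.1 hP
      obtain ⟨h1, h2, h3⟩ := hl p hp
      intro q hq
      simp only [List.mem_cons, List.not_mem_nil, or_false] at hq
      rcases hq with rfl | rfl
      · exact h1
      · exact h2
    · rw [List.mem_singleton] at hP
      rw [hP]
      intro q hq
      simp only [List.mem_cons, List.not_mem_nil, or_false] at hq
      rcases hq with rfl | rfl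
      · exact hu
      · exact hv
  have hS := hGSN 4 C4 F hb4 _ [] t (H'.map (GE C4 F).subtype) hrt hPH (fun a ha => by simp at ha)
  obtain ⟨hG1, hG2⟩ := hN4N F 0 1 one_ne_zero (H'.map (GE C4 F).subtype)
    (fun i => by
      rw [Z5B_XP, Z5B_XP]
      exact ⟨(hS _ (hCg i).1).2, (hS _ (hCg i).2).2⟩)
  have hu1 := hG1 u hu
  rw [Z5B_XP] at hu1
  have hvt : XG C4 v t ∈ H'.map (GE C4 F).subtype := by
    have h15 := mul_mem (inv_mem hu1) hm0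
    rwa [inv_mul_cancel_left] at h15
  have hfin := hG2 v t hv (by rw [Z5B_XP]; exact hvt) ht
  rw [eq_top_iff]
  intro x _
  obtain ⟨x', hx', hxx⟩ := hfin x.2
  have h17 : x' = x := Subtype.ext hxx
  rw [← h17]
  exact hx'

end Pool.Agent.TRI
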